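import Mathlib

/-!
The positive part of the Witt algebra over a field of characteristic zero: every subalgebra is
finitely generated, and the lower central series has trivial intersection.
-/

set_option autoImplicit false

open Polynomial

namespace Pool.Agent.Q113.NW

universe u

variable (k : Type u) [Field k]

/-- The positive Witt algebra, on the vector space `k[X]`; `X ^ (i - 1)` is the basis vector
`e_i`, `i ≥ 1`. -/
def W : Type u := k[X]

noncomputable instance : AddCommGroup (W k) := (inferInstance : AddCommGroup k[X])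
noncomputable instance : Module k (W k) := (inferInstance : Module k k[X])

/-- the identity map `W → k[X]` -/
def W.p {k : Type u} [Field k] (f : W k) : k[X] := f

/-- the bracket of two polynomials -/
noncomputable def br {k : Type u} [Field k] (f g : k[X]) : k[X] :=
  X ^ 2 * (f * derivative g - derivative f * g)

/-- `⁅f, g⁆ = X² (f g' - f' g)`, so that `⁅e_i, e_j⁆ = (j - i) e_{i+j}`. -/
noncomputable instance : Bracket (W k) (W k) := ⟨fun f g => br f.p g.p⟩

variable {k}

theorem lie_def (f g : W k) : ⁅f, g⁆ = br f.p g.p := rfl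

theorem br_jac (f g h : k[X]) : br f (br g h) = br (br f g) h + br g (br f h) := by
  simp only [br, derivative_mul, derivative_sub, derivative_X_pow, Nat.cast_ofNat]
  simp only [map_ofNat, Nat.add_one_sub_one, pow_one]
  ring

noncomputable instance : LieRing (W k) where
  add_lie f g h := by
    change br (f.p + g.p) h.p = br f.p h.p + br g.p h.p
    simp only [br, derivative_add]; ring
  lie_add f g h := by
    change br f.p (g.p + h.p) = br f.p g.p + br f.p h.p
    simp only [br, derivative_add]; ring
  lie_self f := by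
    change br f.p f.p = 0
    simp only [br]; ring
  leibniz_lie f g h := br_jac f.p g.p h.p

noncomputable instance : LieAlgebra k (W k) where
  lie_smul c f g := by
    change br f.p (c • g.p) = c • br f.p g.p
    simp only [br, smul_eq_C_mul, derivative_C_mul]; ring

theorem coeff_X_mul_deriv (g : k[X]) (n : ℕ) : (X * derivative g).coeff n = n * g.coeff n := by
  cases n with
  | zero => simp
  | succ n => rw [coeff_X_mul, coeff_derivative]; push_cast; ring

theorem natDegree_X_mul_deriv (g : k[X]) : (X * derivative g).natDegree ≤ g.natDegree := by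
  rw [natDegree_le_iff_coeff_eq_zero]
  intro N hN
  rw [coeff_X_mul_deriv, coeff_eq_zero_of_natDegree_lt hN, mul_zero]

theorem br_eq (f g : k[X]) : br f g = X * (f * (X * derivative g) - (X * derivative f) * g) := by
  rw [br]; ring

/-- the coefficient of the bracket in the top degree -/
theorem br_coeff_top (f g : k[X]) : (br f g).coeff (f.natDegree + g.natDegree + 1) =
    ((g.natDegree : k) - f.natDegree) * (f.leadingCoeff * g.leadingCoeff) := by
  rw [br_eq, coeff_X_mul, coeff_sub, coeff_mul_add_eq_of_natDegree_le le_rfl (natDegree_X_mul_deriv g),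
    coeff_mul_add_eq_of_natDegree_le (natDegree_X_mul_deriv f) le_rfl, coeff_X_mul_deriv,
    coeff_X_mul_deriv]
  simp only [leadingCoeff]
  ring

theorem br_natDegree_le (f g : k[X]) : (br f g).natDegree ≤ f.natDegree + g.natDegree + 1 := by
  rw [br_eq, add_comm _ 1]
  refine (natDegree_mul_le).trans (Nat.add_le_add natDegree_X_le ?_)
  refine (natDegree_sub_le _ _).trans (max_le ?_ ?_)
  · exact natDegree_mul_le.trans (Nat.add_le_add_left (natDegree_X_mul_deriv g) _)
  · exact natDegree_mul_le.trans (Nat.add_le_add_right (natDegree_X_mul_deriv f) _)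

theorem br_natDegree [CharZero k] (f g : k[X]) (hf : f ≠ 0) (hg : g ≠ 0)
    (h : f.natDegree ≠ g.natDegree) :
    br f g ≠ 0 ∧ (br f g).natDegree = f.natDegree + g.natDegree + 1 := by
  have h1 : (br f g).coeff (f.natDegree + g.natDegree + 1) ≠ 0 := by
    rw [br_coeff_top]
    refine mul_ne_zero (sub_ne_zero.mpr ?_) (mul_ne_zero ?_ ?_)
    · intro h2
      exact h (by exact_mod_cast h2.symm)
    · exact leadingCoeff_ne_zero.mpr hf
    · exact leadingCoeff_ne_zero.mpr hg
  refine ⟨fun h0 => h1 (by rw [h0, coeff_zero]), le_antisymm (br_natDegree_le f g)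
    (le_natDegree_of_ne_zero h1)⟩

/-- The set of `natDegree`s of nonzero elements of a subalgebra. -/
def degs (M : LieSubalgebra k (W k)) : Set ℕ := {d | ∃ f ∈ M, f.p ≠ 0 ∧ f.p.natDegree = d}

theorem degs_add [CharZero k] (M : LieSubalgebra k (W k)) {a b : ℕ} (ha : a ∈ degs M)
    (hb : b ∈ degs M) (hab : a ≠ b) : a + b + 1 ∈ degs M := by
  obtain ⟨f, hf, hf0, rfl⟩ := ha
  obtain ⟨g, hg, hg0, rfl⟩ := hb
  obtain ⟨h1, h2⟩ := br_natDegree f.p g.p hf0 hg0 hab
  exact ⟨⁅f, g⁆, M.lie_mem hf hg, h1, h2⟩

/-- If `N ≤ M` has the same degrees then `N = M`. -/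
theorem eq_of_degs (N M : LieSubalgebra k (W k)) (hNM : N ≤ M) (h : degs M ⊆ degs N) : M ≤ N := by
  have key : ∀ n : ℕ, ∀ f : W k, f ∈ M → f.p.natDegree < n → f ∈ N := by
    intro n
    induction n with
    | zero => intro f _ hf; omega
    | succ n ih =>
      intro f hf hfn
      by_cases h0 : f.p = 0
      · have : f = 0 := h0
        rw [this]; exact N.zero_mem
      · obtain ⟨g, hg, hg0, hgd⟩ := h ⟨f, hf, h0, rfl⟩
        set c : k := f.p.leadingCoeff / g.p.leadingCoeff with hc
        have hlg : g.p.leadingCoeff ≠ 0 := leadingCoeff_ne_zero.mpr hg0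
        have hlf : f.p.leadingCoeff ≠ 0 := leadingCoeff_ne_zero.mpr h0
        have hc0 : c ≠ 0 := div_ne_zero hlf hlg
        have hmem : f - c • g ∈ M := M.sub_mem hf (M.smul_mem c (hNM hg))
        have hpe : (f - c • g).p = f.p - C c * g.p := by
          rw [← smul_eq_C_mul]; rfl
        by_cases h1 : (f - c • g).p = 0
        · have h2 : f - c • g = 0 := h1
          rw [sub_eq_zero.mp h2]
          exact N.smul_mem c hg
        · have h2 : (f - c • g).p.natDegree < f.p.natDegree := by
            rw [hpe] at h1 ⊢
            by_cases hd0 : f.p.natDegree = 0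
            · exfalso
              apply h1
              have e1 := eq_C_of_natDegree_eq_zero hd0
              have e2 := eq_C_of_natDegree_eq_zero (hgd.trans hd0)
              have e3 : f.p.leadingCoeff = f.p.coeff 0 := by rw [leadingCoeff, hd0]
              have e4 : g.p.leadingCoeff = g.p.coeff 0 := by rw [leadingCoeff, hgd.trans hd0]
              rw [hc, e3, e4]
              rw [e4] at hlg
              rw [e1, e2, ← C_mul, ← C_sub, coeff_C_zero, coeff_C_zero, div_mul_cancel₀ _ hlg,
                sub_self, C_0]
            · apply lt_of_le_of_ne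
              · refine (natDegree_sub_le _ _).trans (max_le le_rfl ?_)
                rw [natDegree_C_mul hc0, hgd]
              · intro he
                apply h1
                have h3 : (f.p - C c * g.p).leadingCoeff = 0 := by
                  rw [leadingCoeff, he, coeff_sub, coeff_C_mul]
                  have e4 : g.p.leadingCoeff = g.p.coeff f.p.natDegree := by
                    rw [leadingCoeff, hgd]
                  rw [← e4, hc, div_mul_cancel₀ _ hlg, leadingCoeff, sub_self]
                exact leadingCoeff_eq_zero.mp h3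
          have h3 := ih (f - c • g) hmem (by omega)
          have h4 : f = (f - c • g) + c • g := by abel
          rw [h4]
          exact N.add_mem h3 (N.smul_mem c hg)
  intro f hf
  exact key _ f hf (Nat.lt_succ_self _)

/-- every subalgebra is finitely generated -/
theorem fg [CharZero k] (M : LieSubalgebra k (W k)) :
    ∃ s : Finset (W k), LieSubalgebra.lieSpan k (W k) s = M := by
  classical
  by_cases hM : ∃ f ∈ M, f.p ≠ 0
  · obtain ⟨f0, hf0, hf00⟩ := hM
    have hne : (degs M).Nonempty := ⟨_, f0, hf0, hf00, rfl⟩
    -- the least degree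
    set a := sInf (degs M) with ha
    have haM : a ∈ degs M := Nat.sInf_mem hne
    have hamin : ∀ d ∈ degs M, a ≤ d := fun d hd => Nat.sInf_le hd
    -- representatives of the least element in each residue class mod `a + 1`
    have hrep : ∀ r : ℕ, ∃ f : W k, f ∈ M ∧ (∀ d ∈ degs M, d ≠ a → d % (a + 1) = r →
        f.p ≠ 0 ∧ f.p.natDegree ≠ a ∧ f.p.natDegree % (a + 1) = r ∧ f.p.natDegree ≤ d) := by
      intro r
      by_cases hr : ∃ d, d ∈ degs M ∧ d ≠ a ∧ d % (a + 1) = r
      · have h1 := Nat.find_spec hr
        obtain ⟨⟨f, hf, hfne, hfd⟩, h2, h3⟩ := h1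
        refine ⟨f, hf, fun d hd hda hdr => ⟨hfne, ?_, ?_, ?_⟩⟩
        · rw [hfd]; exact h2
        · rw [hfd]; exact h3
        · rw [hfd]; exact Nat.find_min' hr ⟨hd, hda, hdr⟩
      · refine ⟨0, M.zero_mem, fun d hd hda hdr => absurd ⟨d, hd, hda, hdr⟩ hr⟩
    choose F hFM hF using hrep
    obtain ⟨g, hgM, hg0, hga⟩ := haM
    let s : Finset (W k) := insert g ((Finset.range (a + 1)).image F)
    refine ⟨s, ?_⟩
    have hle : LieSubalgebra.lieSpan k (W k) s ≤ M := by
      rw [LieSubalgebra.lieSpan_le]
      intro x hx
      simp only [s, Finset.coe_insert, Finset.coe_image, Set.mem_insert_iff] at hx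
      rcases hx with rfl | ⟨r, -, rfl⟩
      · exact hgM
      · exact hFM r
    refine le_antisymm hle (eq_of_degs _ _ hle ?_)
    set N := LieSubalgebra.lieSpan k (W k) (s : Set (W k)) with hN
    have hgN : g ∈ N := LieSubalgebra.subset_lieSpan (by simp [s])
    have haN : a ∈ degs N := ⟨g, hgN, hg0, hga⟩
    have hstep : ∀ j : ℕ, ∀ b : ℕ, b ∈ degs N → a < b → b + j * (a + 1) ∈ degs N := by
      intro j
      induction j with
      | zero => intro b hb _; simpa using hb
      | succ j ih =>
        intro b hb hab
        have h1 := ih b hb hab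
        have h2 := degs_add N h1 haN (by omega)
        have h3 : b + j * (a + 1) + a + 1 = b + (j + 1) * (a + 1) := by ring
        rwa [h3] at h2
    intro d hd
    by_cases hda : d = a
    · rw [hda]; exact haN
    · obtain ⟨h1, h2, h3, h4⟩ := hF (d % (a + 1)) d hd hda rfl
      have h5 : F (d % (a + 1)) ∈ N := by
        apply LieSubalgebra.subset_lieSpan
        simp only [s, Finset.coe_insert, Finset.coe_image, Set.mem_insert_iff]
        right
        exact ⟨d % (a + 1), by simpa using Nat.le_of_lt_succ (Nat.mod_lt d (Nat.succ_pos a)), rfl⟩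
      have h6 : (F (d % (a + 1))).p.natDegree ∈ degs N := ⟨_, h5, h1, rfl⟩
      have h7 : a ≤ (F (d % (a + 1))).p.natDegree := hamin _ ⟨_, hFM _, h1, rfl⟩
      obtain ⟨j, hj⟩ := (Nat.modEq_iff_dvd' h4).mp h3
      have h8 := hstep j _ h6 (lt_of_le_of_ne h7 (Ne.symm h2))
      have h9 : (F (d % (a + 1))).p.natDegree + j * (a + 1) = d := by
        rw [mul_comm, ← hj]; omega
      rwa [h9] at h8
  · push Not at hM
    refine ⟨∅, ?_⟩
    rw [Finset.coe_empty, LieSubalgebra.span_empty, eq_comm, eq_bot_iff]
    intro f hf
    have : f = 0 := hM f hf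
    rw [this]
    exact LieSubalgebra.zero_mem _

/-- the maximal condition on subalgebras -/
theorem max_cond [CharZero k] (f : ℕ →o LieSubalgebra k (W k)) : ∃ n, ∀ m, n ≤ m → f n = f m := by
  classical
  let M : LieSubalgebra k (W k) :=
    { carrier := {x | ∃ n, x ∈ f n}
      add_mem' := by
        rintro x y ⟨n, hn⟩ ⟨m, hm⟩
        exact ⟨max n m, (f (max n m)).add_mem (f.monotone (le_max_left n m) hn)
          (f.monotone (le_max_right n m) hm)⟩
      zero_mem' := ⟨0, (f 0).zero_mem⟩
      smul_mem' := by
        rintro c x ⟨n, hn⟩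
        exact ⟨n, (f n).smul_mem c hn⟩
      lie_mem' := by
        rintro x y ⟨n, hn⟩ ⟨m, hm⟩
        exact ⟨max n m, (f (max n m)).lie_mem (f.monotone (le_max_left n m) hn)
          (f.monotone (le_max_right n m) hm)⟩ }
  obtain ⟨s, hs⟩ := fg M
  have h1 : ∀ x ∈ s, ∃ n, x ∈ f n := by
    intro x hx
    have : x ∈ M := by rw [← hs]; exact LieSubalgebra.subset_lieSpan hx
    exact this
  have h2 : ∃ n, ∀ x ∈ s, x ∈ f n := by
    clear hs
    induction s using Finset.induction_on with
    | empty => exact ⟨0, by simp⟩
    | insert a s _ ih =>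
      obtain ⟨n, hn⟩ := ih (fun x hx => h1 x (Finset.mem_insert_of_mem hx))
      obtain ⟨m, hm⟩ := h1 a (Finset.mem_insert_self a s)
      refine ⟨max n m, fun x hx => ?_⟩
      rcases Finset.mem_insert.mp hx with rfl | hx
      · exact f.monotone (le_max_right n m) hm
      · exact f.monotone (le_max_left n m) (hn x hx)
  obtain ⟨n, hn⟩ := h2
  refine ⟨n, fun m hnm => le_antisymm (f.monotone hnm) ?_⟩
  have h3 : M ≤ f n := by
    rw [← hs, LieSubalgebra.lieSpan_le]
    exact hn
  intro x hx
  exact h3 ⟨m, hx⟩

/-- elements of the `n`-th term of the lower central series are divisible by `X ^ n` -/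
theorem lcs_dvd (n : ℕ) (x : W k) (hx : x ∈ LieModule.lowerCentralSeries k (W k) (W k) n) :
    X ^ n ∣ x.p := by
  let I : ℕ → LieIdeal k (W k) := fun n =>
    { carrier := {x | X ^ n ∣ x.p}
      add_mem' := fun {x y} hx hy => dvd_add (a := X ^ n) (b := x.p) (c := y.p) hx hy
      zero_mem' := dvd_zero _
      smul_mem' := by
        intro c x hx
        change X ^ n ∣ c • x.p
        rw [smul_eq_C_mul]
        exact dvd_mul_of_dvd_right hx _
      lie_mem := by
        intro x y hy
        change X ^ n ∣ br x.p y.p
        obtain ⟨q, hq⟩ := hy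
        change y.p = _ at hq
        rw [br_eq, hq, derivative_mul, derivative_X_pow]
        cases n with
        | zero => simp
        | succ n =>
          refine ⟨X * (x.p * (C ((n + 1 : ℕ) : k) * q + X * derivative q) - X * derivative x.p * q),
            ?_⟩
          simp only [Nat.add_one_sub_one]
          ring }
  have key : ∀ n, LieModule.lowerCentralSeries k (W k) (W k) n ≤ I n := by
    intro n
    induction n with
    | zero => intro x _; exact one_dvd _
    | succ n ih =>
      rw [LieModule.lowerCentralSeries_succ, LieSubmodule.lieIdeal_oper_eq_span,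
        LieSubmodule.lieSpan_le]
      rintro _ ⟨⟨x, -⟩, ⟨y, hy⟩, rfl⟩
      obtain ⟨q, hq⟩ : X ^ n ∣ y.p := ih hy
      change y.p = _ at hq
      change X ^ (n + 1) ∣ br x.p y.p
      rw [br_eq, hq, derivative_mul, derivative_X_pow]
      cases n with
      | zero => 
        refine ⟨x.p * (X * derivative q) - X * derivative x.p * q, ?_⟩
        simp
      | succ n =>
        refine ⟨x.p * (C ((n + 1 : ℕ) : k) * q + X * derivative q) - X * derivative x.p * q, ?_⟩
        simp only [Nat.add_one_sub_one]
        ring
  exact key n hx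

theorem iInf_lcs : ⨅ n, LieModule.lowerCentralSeries k (W k) (W k) n = ⊥ := by
  rw [eq_bot_iff]
  intro x hx
  rw [LieSubmodule.mem_iInf] at hx
  rw [LieSubmodule.mem_bot]
  by_contra h0
  have h0' : x.p ≠ 0 := h0
  have h1 := lcs_dvd _ _ (hx (x.p.natDegree + 1))
  have h2 := natDegree_le_of_dvd h1 h0'
  rw [natDegree_X_pow] at h2
  omega

theorem not_finite : ¬ Module.Finite k (W k) := by
  intro h
  have : Module.Finite k k[X] := h
  exact Polynomial.not_finite this

end Pool.Agent.Q113.NW
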